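import Pool.Agent.W_MP_7f6698_co.Proof

/-!
For every odd `p ≥ 5` we give an explicit infinite family of pairwise non-isomorphic
(finite) internally self-dual regular polyhedra of type `{p, p}`.
-/

namespace Pool.Agent.Results.MP_7f6698_co.InfiniteFamily

open Pool.Agent.W_MP_7f6698_co

/-- For every odd `p ≥ 5`, the marked groups `family p n`, `n ≥ 3` odd, are finite, are
automorphism groups of internally self-dual regular polyhedra of type `{p, p}`, and are pairwise
non-isomorphic. -/
theorem result (p : ℕ) (hp : Odd p) (hp5 : 5 ≤ p) :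
    (∀ n : ℕ, Odd n → 3 ≤ n →
      Finite (family p n).G ∧ IsRegularPolyhedron (family p n) ∧
        HasType (family p n) p p ∧ InternallySelfDual (family p n)) ∧
    (∀ m n : ℕ, Odd m → Odd n → 3 ≤ m → 3 ≤ n → m ≠ n →
      ¬ Isomorphic (family p m) (family p n)) := by
  refine ⟨fun n hn hn3 => ⟨?_, family_isRegularPolyhedron hp5 hn3, family_hasType hp5,
    family_internallySelfDual hp5 hp hn⟩,
    fun m n hm hn _ _ hmn => family_not_isomorphic hp5 hp hm hn hmn⟩
  have : NeZero p := ⟨by omega⟩
  have : NeZero n := ⟨by omega⟩
  change Finite (Subgroup.closure (Set.range (gens p n)))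
  infer_instance

end Pool.Agent.Results.MP_7f6698_co.InfiniteFamily
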